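import Pool.Agent.W203.BE.Stms
import Pool.Agent.W755.MzStrong

/-!
Project BE (MP_c7bdf0_an), part HL: the maximal inequality for product Gaussian kernels.
-/

set_option autoImplicit false

open MeasureTheory Set
open scoped ENNReal NNReal

namespace Pool.Agent.W327.BE

open Pool.Agent.W203.BE
open Pool.Agent.W755.Mz (Mm Mm_ge measurable_Mm strong Cq Cq_ne_top)

theorem measurable_mk (t : ℝ) : Measurable (mk t) := by
  unfold mk
  fun_prop

/-- the constant of the one-dimensional comparison -/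
noncomputable def C1 : ℝ≥0∞ := ∑' m : ℕ, ENNReal.ofReal (2 * ((m : ℝ) + 1) * Real.exp (-((m : ℝ) ^ 2 / 20)))

theorem C1_ne_top : C1 ≠ ⊤ := by
  have h1 : Summable fun m : ℕ => 2 * ((m : ℝ) + 1) * Real.exp (-((m : ℝ) ^ 2 / 20)) := by
    have h2 := Real.summable_pow_mul_exp_neg_nat_mul 1 (r := 1 / 20) (by norm_num)
    have h3 := Real.summable_pow_mul_exp_neg_nat_mul 0 (r := 1 / 20) (by norm_num)
    refine Summable.of_nonneg_of_le (fun m => by positivity) (fun m => ?_)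
      ((h2.mul_left 2).add (h3.mul_left 2))
    have h4 : Real.exp (-((m : ℝ) ^ 2 / 20)) ≤ Real.exp (-(1 / 20) * m) := by
      apply Real.exp_le_exp.2
      have h5 : (m : ℝ) ≤ (m : ℝ) ^ 2 := by
        rcases Nat.eq_zero_or_pos m with rfl | h
        · simp
        · have : (1 : ℝ) ≤ m := by exact_mod_cast h
          nlinarith
      linarith
    calc 2 * ((m : ℝ) + 1) * Real.exp (-((m : ℝ) ^ 2 / 20))
        ≤ 2 * ((m : ℝ) + 1) * Real.exp (-(1 / 20) * m) :=
          mul_le_mul_of_nonneg_left h4 (by positivity)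
      _ = 2 * ((m : ℝ) ^ 1 * Real.exp (-(1 / 20) * m)) + 2 * ((m : ℝ) ^ 0 * Real.exp (-(1 / 20) * m)) := by
          ring
  unfold C1
  rw [← ENNReal.ofReal_tsum_of_nonneg (fun m => by positivity) h1]
  exact ENNReal.ofReal_ne_top

/-- the kernel is dominated by a sum of indicators of intervals -/
theorem mk_le {t : ℝ} (ht : 0 < t) (x y : ℝ) :
    mk t (x - y) ≤ ∑' m : ℕ, (Ioo (x - (m + 1) * t) (x + (m + 1) * t)).indicator
      (fun _ => ENNReal.ofReal (t⁻¹ * Real.exp (-((m : ℝ) ^ 2 / 20)))) y := by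
  set m : ℕ := ⌊|x - y| / t⌋₊ with hm
  have h0 : 0 ≤ |x - y| / t := by positivity
  have h1 : (m : ℝ) ≤ |x - y| / t := Nat.floor_le h0
  have h2 : |x - y| / t < m + 1 := Nat.lt_floor_add_one _
  rw [le_div_iff₀ ht] at h1
  rw [div_lt_iff₀ ht] at h2
  refine le_trans ?_ (ENNReal.le_tsum m)
  have hy : y ∈ Ioo (x - (m + 1) * t) (x + (m + 1) * t) := by
    have h3 := abs_lt.1 h2
    constructor <;> linarith [h3.1, h3.2]
  rw [indicator_of_mem hy]
  unfold mk
  apply ENNReal.ofReal_le_ofReal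
  apply mul_le_mul_of_nonneg_left _ (inv_nonneg.2 ht.le)
  apply Real.exp_le_exp.2
  have h4 : (m : ℝ) ^ 2 * t ^ 2 ≤ (x - y) ^ 2 := by
    rw [← sq_abs (x - y), ← mul_pow]
    exact pow_le_pow_left₀ (by positivity) h1 2
  have h5 : (m : ℝ) ^ 2 / 20 ≤ (x - y) ^ 2 / (20 * t ^ 2) := by
    rw [div_le_div_iff₀ (by norm_num) (by positivity)]
    linarith
  linarith

/-- the one-dimensional averages are dominated by the maximal function -/
theorem one_dim {t : ℝ} (ht : 0 < t) (F : ℝ → ℝ≥0∞) (hF : Measurable F) (x : ℝ) :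
    ∫⁻ y, mk t (x - y) * F y ≤ C1 * Mm volume F x := by
  have hm : ∀ m : ℕ, Measurable fun y : ℝ => (Ioo (x - (m + 1) * t) (x + (m + 1) * t)).indicator
      (fun _ => ENNReal.ofReal (t⁻¹ * Real.exp (-((m : ℝ) ^ 2 / 20)))) y * F y := fun m =>
    (measurable_const.indicator measurableSet_Ioo).mul hF
  calc ∫⁻ y, mk t (x - y) * F y
      ≤ ∫⁻ y, (∑' m : ℕ, (Ioo (x - (m + 1) * t) (x + (m + 1) * t)).indicator
          (fun _ => ENNReal.ofReal (t⁻¹ * Real.exp (-((m : ℝ) ^ 2 / 20)))) y) * F y :=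
        lintegral_mono fun y => mul_le_mul' (mk_le ht x y) le_rfl
    _ = ∫⁻ y, ∑' m : ℕ, (Ioo (x - (m + 1) * t) (x + (m + 1) * t)).indicator
          (fun _ => ENNReal.ofReal (t⁻¹ * Real.exp (-((m : ℝ) ^ 2 / 20)))) y * F y := by
        refine lintegral_congr fun y => ?_
        rw [ENNReal.tsum_mul_right]
    _ = ∑' m : ℕ, ∫⁻ y, (Ioo (x - (m + 1) * t) (x + (m + 1) * t)).indicator
          (fun _ => ENNReal.ofReal (t⁻¹ * Real.exp (-((m : ℝ) ^ 2 / 20)))) y * F y :=
        lintegral_tsum fun m => (hm m).aemeasurable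
    _ ≤ ∑' m : ℕ, ENNReal.ofReal (2 * ((m : ℝ) + 1) * Real.exp (-((m : ℝ) ^ 2 / 20))) *
          Mm volume F x := by
        refine ENNReal.tsum_le_tsum fun m => ?_
        have hpos : (0 : ℝ) < (m + 1) * t := by positivity
        have e1 : ∫⁻ y, (Ioo (x - (m + 1) * t) (x + (m + 1) * t)).indicator
            (fun _ => ENNReal.ofReal (t⁻¹ * Real.exp (-((m : ℝ) ^ 2 / 20)))) y * F y =
            ENNReal.ofReal (t⁻¹ * Real.exp (-((m : ℝ) ^ 2 / 20))) *
              ∫⁻ y in Ioo (x - (m + 1) * t) (x + (m + 1) * t), F y := by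
          rw [← lintegral_const_mul _ hF, ← lintegral_indicator measurableSet_Ioo]
          refine lintegral_congr fun y => ?_
          by_cases hy : y ∈ Ioo (x - (m + 1) * t) (x + (m + 1) * t)
          · rw [indicator_of_mem hy, indicator_of_mem hy]
          · rw [indicator_of_notMem hy, indicator_of_notMem hy, zero_mul]
        rw [e1]
        have h1 := Mm_ge volume F (x := x) (a := x - (m + 1) * t) (b := x + (m + 1) * t)
          ⟨by linarith, by linarith⟩
        rw [Real.volume_Ioo] at h1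
        have e2 : x + (m + 1) * t - (x - (m + 1) * t) = 2 * ((m + 1) * t) := by ring
        rw [e2] at h1
        have hne : ENNReal.ofReal (2 * ((m + 1) * t)) ≠ 0 := (ENNReal.ofReal_pos.2 (by positivity)).ne'
        have h2 : ∫⁻ y in Ioo (x - (m + 1) * t) (x + (m + 1) * t), F y ≤
            ENNReal.ofReal (2 * ((m + 1) * t)) * Mm volume F x := by
          calc ∫⁻ y in Ioo (x - (m + 1) * t) (x + (m + 1) * t), F y
              = ENNReal.ofReal (2 * ((m + 1) * t)) * ((ENNReal.ofReal (2 * ((m + 1) * t)))⁻¹ *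
                ∫⁻ y in Ioo (x - (m + 1) * t) (x + (m + 1) * t), F y) := by
                rw [← mul_assoc, ENNReal.mul_inv_cancel hne ENNReal.ofReal_ne_top, one_mul]
            _ ≤ _ := mul_le_mul' le_rfl h1
        calc ENNReal.ofReal (t⁻¹ * Real.exp (-((m : ℝ) ^ 2 / 20))) *
              ∫⁻ y in Ioo (x - (m + 1) * t) (x + (m + 1) * t), F y
            ≤ ENNReal.ofReal (t⁻¹ * Real.exp (-((m : ℝ) ^ 2 / 20))) *
              (ENNReal.ofReal (2 * ((m + 1) * t)) * Mm volume F x) := mul_le_mul' le_rfl h2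
          _ = _ := by
              rw [← mul_assoc, ← ENNReal.ofReal_mul (by positivity)]
              congr 2
              field_simp
    _ = C1 * Mm volume F x := by rw [ENNReal.tsum_mul_right]; rfl

/-- averages with the product kernel -/
noncomputable def Kd {n : ℕ} (t : ℝ) (f : (Fin n → ℝ) → ℝ≥0∞) (x : Fin n → ℝ) : ℝ≥0∞ :=
  ∫⁻ y, (∏ j, mk t (x j - y j)) * f y

/-- dyadic maximal function -/
noncomputable def MMd {n : ℕ} (f : (Fin n → ℝ) → ℝ≥0∞) (x : Fin n → ℝ) : ℝ≥0∞ :=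
  ⨆ k : ℤ, Kd ((2 : ℝ) ^ k) f x

theorem measurable_ker {n : ℕ} (t : ℝ) :
    Measurable fun q : (Fin n → ℝ) × (Fin n → ℝ) => ∏ j, mk t (q.1 j - q.2 j) := by
  refine Finset.measurable_prod _ fun j _ => ?_
  exact (measurable_mk t).comp (by fun_prop)

theorem measurable_Kd {n : ℕ} (t : ℝ) {f : (Fin n → ℝ) → ℝ≥0∞} (hf : Measurable f) :
    Measurable (Kd t f) := by
  have h : Measurable fun q : (Fin n → ℝ) × (Fin n → ℝ) => (∏ j, mk t (q.1 j - q.2 j)) * f q.2 :=
    (measurable_ker t).mul (hf.comp measurable_snd)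
  exact h.lintegral_prod_right'

theorem measurable_MMd {n : ℕ} {f : (Fin n → ℝ) → ℝ≥0∞} (hf : Measurable f) :
    Measurable (MMd f) := Measurable.iSup fun _ => measurable_Kd _ hf

/-- comparison of the maximal functions -/
theorem MM_le {n : ℕ} (f : (Fin n → ℝ) → ℝ≥0∞) (x : Fin n → ℝ) : MM f x ≤ 2 ^ n * MMd f x := by
  unfold MM
  refine iSup_le fun ⟨t, ht⟩ => ?_
  obtain ⟨k, hk1, hk2⟩ : ∃ k : ℤ, t ≤ (2 : ℝ) ^ k ∧ (2 : ℝ) ^ k ≤ 2 * t := by
    obtain ⟨k, hk1, hk2⟩ := exists_mem_Ioc_zpow ht (y := 2) (by norm_num)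
    refine ⟨k + 1, hk2, ?_⟩
    rw [zpow_add_one₀ (by norm_num)]
    linarith
  have hk0 : (0 : ℝ) < (2 : ℝ) ^ k := zpow_pos (by norm_num) _
  have hmk : ∀ u : ℝ, mk t u ≤ 2 * mk ((2 : ℝ) ^ k) u := by
    intro u
    unfold mk
    rw [show (2 : ℝ≥0∞) = ENNReal.ofReal 2 by norm_num, ← ENNReal.ofReal_mul (by norm_num)]
    apply ENNReal.ofReal_le_ofReal
    have h1 : t⁻¹ ≤ 2 * ((2 : ℝ) ^ k)⁻¹ := by
      rw [← div_eq_mul_inv, inv_eq_one_div, div_le_div_iff₀ ht hk0]
      linarith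
    have h2 : Real.exp (-(u ^ 2 / (20 * t ^ 2))) ≤ Real.exp (-(u ^ 2 / (20 * ((2 : ℝ) ^ k) ^ 2))) := by
      apply Real.exp_le_exp.2
      have h3 : t ^ 2 ≤ ((2 : ℝ) ^ k) ^ 2 := pow_le_pow_left₀ ht.le hk1 2
      have h4 : u ^ 2 / (20 * ((2 : ℝ) ^ k) ^ 2) ≤ u ^ 2 / (20 * t ^ 2) :=
        div_le_div_of_nonneg_left (sq_nonneg u) (by positivity) (by linarith)
      linarith
    rw [← mul_assoc]
    exact mul_le_mul h1 h2 (Real.exp_pos _).le (by positivity)
  calc ∫⁻ y, (∏ j, mk t (x j - y j)) * f y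
      ≤ ∫⁻ y, 2 ^ n * ((∏ j, mk ((2 : ℝ) ^ k) (x j - y j)) * f y) := by
        refine lintegral_mono fun y => ?_
        rw [← mul_assoc]
        refine mul_le_mul' ?_ le_rfl
        have e1 : (2 : ℝ≥0∞) ^ n = ∏ _j : Fin n, (2 : ℝ≥0∞) := by simp
        rw [e1, ← Finset.prod_mul_distrib]
        exact Finset.prod_le_prod' fun j _ => hmk _
    _ = 2 ^ n * Kd ((2 : ℝ) ^ k) f x := by
        rw [lintegral_const_mul' _ _ (by simp)]
        rfl
    _ ≤ 2 ^ n * MMd f x := mul_le_mul' le_rfl (le_iSup (fun k : ℤ => Kd ((2 : ℝ) ^ k) f x) k)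

/-- adding a first coordinate -/
def cs {n : ℕ} (q : ℝ × (Fin n → ℝ)) : Fin (n + 1) → ℝ := Fin.cons q.1 q.2

theorem cs_eq {n : ℕ} (q : ℝ × (Fin n → ℝ)) :
    (MeasurableEquiv.piFinSuccAbove (fun _ : Fin (n + 1) => ℝ) 0).symm q = cs q := by
  unfold cs
  rw [← Fin.insertNth_zero']
  rfl

theorem measurable_cs {n : ℕ} : Measurable (cs (n := n)) := by
  have h : (cs (n := n)) = (MeasurableEquiv.piFinSuccAbove (fun _ : Fin (n + 1) => ℝ) 0).symm := by
    funext q; exact (cs_eq q).symm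
  rw [h]
  exact MeasurableEquiv.measurable _

theorem lintegral_cs {n : ℕ} (G : (Fin (n + 1) → ℝ) → ℝ≥0∞) :
    ∫⁻ y, G y = ∫⁻ q : ℝ × (Fin n → ℝ), G (cs q) := by
  have h := (volume_preserving_piFinSuccAbove (fun _ : Fin (n + 1) => ℝ) 0).symm
  have h1 := h.lintegral_comp_emb (MeasurableEquiv.measurableEmbedding _) G
  rw [← h1]
  exact lintegral_congr fun q => by rw [cs_eq]

theorem Kd_succ {n : ℕ} (t : ℝ) {f : (Fin (n + 1) → ℝ) → ℝ≥0∞} (hf : Measurable f)
    (x : ℝ × (Fin n → ℝ)) :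
    Kd t f (cs x) = ∫⁻ y0, mk t (x.1 - y0) * Kd t (fun y' => f (cs (y0, y'))) x.2 := by
  unfold Kd
  rw [lintegral_cs]
  have hmeas : Measurable fun q : ℝ × (Fin n → ℝ) =>
      (∏ j, mk t (cs x j - cs q j)) * f (cs q) := by
    refine Measurable.mul (Finset.measurable_prod _ fun j _ => ?_) (hf.comp measurable_cs)
    exact (measurable_mk t).comp (measurable_const.sub ((measurable_pi_apply j).comp measurable_cs))
  rw [Measure.volume_eq_prod, lintegral_prod _ hmeas.aemeasurable]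
  refine lintegral_congr fun y0 => ?_
  have hm2 : Measurable fun y' : Fin n → ℝ => (∏ j, mk t (x.2 j - y' j)) * f (cs (y0, y')) := by
    refine Measurable.mul (Finset.measurable_prod _ fun j _ => ?_)
      (hf.comp (measurable_cs.comp (measurable_const.prodMk measurable_id)))
    exact (measurable_mk t).comp (measurable_const.sub (measurable_pi_apply j))
  rw [← lintegral_const_mul _ hm2]
  refine lintegral_congr fun y' => ?_
  rw [Fin.prod_univ_succ, mul_assoc]
  rfl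

/-- the inner maximal function -/
noncomputable def Hf {n : ℕ} (f : (Fin (n + 1) → ℝ) → ℝ≥0∞) (q : ℝ × (Fin n → ℝ)) : ℝ≥0∞ :=
  MMd (fun y' => f (cs (q.1, y'))) q.2

theorem measurable_Hf {n : ℕ} {f : (Fin (n + 1) → ℝ) → ℝ≥0∞} (hf : Measurable f) :
    Measurable (Hf f) := by
  unfold Hf MMd
  refine Measurable.iSup fun k => ?_
  unfold Kd
  have h : Measurable fun z : (ℝ × (Fin n → ℝ)) × (Fin n → ℝ) =>
      (∏ j, mk ((2 : ℝ) ^ k) (z.1.2 j - z.2 j)) * f (cs (z.1.1, z.2)) := by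
    refine Measurable.mul (Finset.measurable_prod _ fun j _ => ?_)
      (hf.comp (measurable_cs.comp ((measurable_fst.comp measurable_fst).prodMk measurable_snd)))
    exact (measurable_mk _).comp
      (((measurable_pi_apply j).comp (measurable_snd.comp measurable_fst)).sub
        ((measurable_pi_apply j).comp measurable_snd))
  exact h.lintegral_prod_right'

theorem MMd_succ {n : ℕ} {f : (Fin (n + 1) → ℝ) → ℝ≥0∞} (hf : Measurable f)
    (x : ℝ × (Fin n → ℝ)) :
    MMd f (cs x) ≤ C1 * Mm volume (fun y0 => Hf f (y0, x.2)) x.1 := by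
  refine iSup_le fun k => ?_
  rw [Kd_succ _ hf]
  refine le_trans (lintegral_mono fun y0 => mul_le_mul' le_rfl ?_)
    (one_dim (zpow_pos (by norm_num) k) (fun y0 => Hf f (y0, x.2))
      ((measurable_Hf hf).comp (measurable_id.prodMk measurable_const)) x.1)
  exact le_iSup (fun k : ℤ => Kd ((2 : ℝ) ^ k) (fun y' => f (cs (y0, y'))) x.2) k

/-- the constant -/
noncomputable def Cn (p : ℝ) : ℕ → ℝ≥0∞
  | 0 => 1
  | n + 1 => C1 ^ p * Cq p * Cn p n

theorem Cn_ne_top {p : ℝ} (hp : 1 < p) (n : ℕ) : Cn p n ≠ ⊤ := by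
  induction n with
  | zero => exact ENNReal.one_ne_top
  | succ n ih =>
    exact ENNReal.mul_ne_top (ENNReal.mul_ne_top
      (ENNReal.rpow_ne_top_of_nonneg (by linarith) C1_ne_top) (Cq_ne_top p)) ih

theorem MMd_bound {p : ℝ} (hp : 1 < p) (n : ℕ) : ∀ f : (Fin n → ℝ) → ℝ≥0∞, Measurable f →
    ∫⁻ x, MMd f x ^ p ≤ Cn p n * ∫⁻ x, f x ^ p := by
  have hp0 : 0 ≤ p := by linarith
  induction n with
  | zero =>
    intro f _
    have h1 : ∀ x, MMd f x = f x := by
      intro x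
      unfold MMd Kd
      have h2 : ∀ k : ℤ, ∫⁻ y : Fin 0 → ℝ, (∏ j, mk ((2 : ℝ) ^ k) (x j - y j)) * f y = f x := by
        intro k
        have h3 : ∀ y : Fin 0 → ℝ, (∏ j, mk ((2 : ℝ) ^ k) (x j - y j)) * f y = f x := by
          intro y
          rw [Subsingleton.elim y x]
          simp
        simp_rw [h3]
        rw [lintegral_const, volume_pi, Measure.pi_of_empty]
        simp
      simp_rw [h2]
      exact iSup_const
    simp_rw [h1]
    rw [show Cn p 0 = 1 from rfl, one_mul]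
  | succ n ih =>
    intro f hf
    have hH := measurable_Hf hf
    have hpw : ∀ x : ℝ × (Fin n → ℝ), MMd f (cs x) ^ p ≤
        C1 ^ p * Mm volume (fun y0 => Hf f (y0, x.2)) x.1 ^ p := by
      intro x
      rw [← ENNReal.mul_rpow_of_nonneg _ _ hp0]
      exact ENNReal.rpow_le_rpow (MMd_succ hf x) hp0
    have hM : Measurable fun x : ℝ × (Fin n → ℝ) => MMd f (cs x) ^ p :=
      ((measurable_MMd hf).comp measurable_cs).pow_const _
    calc ∫⁻ x, MMd f x ^ p = ∫⁻ q : ℝ × (Fin n → ℝ), MMd f (cs q) ^ p := lintegral_cs _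
      _ = ∫⁻ x', ∫⁻ x0, MMd f (cs (x0, x')) ^ p := by
          rw [Measure.volume_eq_prod, lintegral_prod_symm _ hM.aemeasurable]
      _ ≤ ∫⁻ x', C1 ^ p * (Cq p * ∫⁻ x0, Hf f (x0, x') ^ p) := by
          refine lintegral_mono fun x' => ?_
          have hHx : Measurable fun y0 : ℝ => Hf f (y0, x') :=
            hH.comp (measurable_id.prodMk measurable_const)
          calc ∫⁻ x0, MMd f (cs (x0, x')) ^ p
              ≤ ∫⁻ x0, C1 ^ p * Mm volume (fun y0 => Hf f (y0, x')) x0 ^ p :=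
                lintegral_mono fun x0 => hpw (x0, x')
            _ = C1 ^ p * ∫⁻ x0, Mm volume (fun y0 => Hf f (y0, x')) x0 ^ p :=
                lintegral_const_mul _ ((measurable_Mm _ _).pow_const _)
            _ ≤ _ := mul_le_mul' le_rfl (strong volume _ hHx hp)
      _ = C1 ^ p * Cq p * ∫⁻ x', ∫⁻ x0, Hf f (x0, x') ^ p := by
          have hm : Measurable fun x' : Fin n → ℝ => ∫⁻ x0, Hf f (x0, x') ^ p :=
            (hH.pow_const p).lintegral_prod_left'
          rw [lintegral_const_mul _ (hm.const_mul _), lintegral_const_mul _ hm, mul_assoc]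
      _ = C1 ^ p * Cq p * ∫⁻ x0, ∫⁻ x', Hf f (x0, x') ^ p := by
          rw [lintegral_lintegral_swap]
          exact ((hH.comp measurable_swap).pow_const p).aemeasurable
      _ ≤ C1 ^ p * Cq p * ∫⁻ x0, Cn p n * ∫⁻ x', f (cs (x0, x')) ^ p := by
          refine mul_le_mul' le_rfl (lintegral_mono fun x0 => ?_)
          exact ih (fun y' => f (cs (x0, y')))
            (hf.comp (measurable_cs.comp (measurable_const.prodMk measurable_id)))
      _ = C1 ^ p * Cq p * (Cn p n * ∫⁻ x, f x ^ p) := by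
          have hm : Measurable fun q : ℝ × (Fin n → ℝ) => f (cs q) ^ p :=
            (hf.comp measurable_cs).pow_const _
          rw [lintegral_const_mul _ hm.lintegral_prod_right', lintegral_cs (fun x => f x ^ p),
            Measure.volume_eq_prod, lintegral_prod _ hm.aemeasurable]
      _ = Cn p (n + 1) * ∫⁻ x, f x ^ p := by
          rw [show Cn p (n + 1) = C1 ^ p * Cq p * Cn p n from rfl, mul_assoc, mul_assoc, mul_assoc]

theorem hl : S_HL := by
  intro n p hp
  have hp0 : 0 ≤ p := by linarith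
  obtain ⟨D, hD⟩ : ∃ D : ℝ≥0∞, D = (2 ^ n) ^ p * Cn p n := ⟨_, rfl⟩
  have hDt : D ≠ ⊤ := by
    rw [hD]
    exact ENNReal.mul_ne_top (ENNReal.rpow_ne_top_of_nonneg hp0 (by simp)) (Cn_ne_top hp n)
  refine ⟨D.toReal + 1, by positivity, fun f hf => ?_⟩
  have h1 : D ≤ ENNReal.ofReal (D.toReal + 1) := by
    conv_lhs => rw [← ENNReal.ofReal_toReal hDt]
    exact ENNReal.ofReal_le_ofReal (by linarith)
  calc ∫⁻ x, MM f x ^ p ≤ ∫⁻ x, (2 ^ n) ^ p * MMd f x ^ p := by
        refine lintegral_mono fun x => ?_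
        rw [← ENNReal.mul_rpow_of_nonneg _ _ hp0]
        exact ENNReal.rpow_le_rpow (MM_le f x) hp0
    _ = (2 ^ n) ^ p * ∫⁻ x, MMd f x ^ p :=
        lintegral_const_mul _ ((measurable_MMd hf).pow_const _)
    _ ≤ (2 ^ n) ^ p * (Cn p n * ∫⁻ x, f x ^ p) := mul_le_mul' le_rfl (MMd_bound hp n f hf)
    _ = D * ∫⁻ x, f x ^ p := by rw [hD, mul_assoc]
    _ ≤ _ := mul_le_mul' h1 le_rfl

end Pool.Agent.W327.BE
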